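import Mathlib

set_option autoImplicit false
set_option linter.unusedSectionVars false

open Filter Topology Metric Set
open scoped ENNReal ContDiff

namespace Pool.Agent.Results.MP_94b2f9_an.NoSmoothBlid

section Taylor

lemma sum_range_two_mul {M : Type*} [AddCommMonoid M] (g : ℕ → M)
    (hg : ∀ j, g (2 * j + 1) = 0) (m : ℕ) :
    ∑ k ∈ Finset.range (2 * m), g k = ∑ j ∈ Finset.range m, g (2 * j) := by
  induction m with
  | zero => simp
  | succ m ih =>
    rw [show 2 * (m + 1) = 2 * m + 1 + 1 by ring, Finset.sum_range_succ, Finset.sum_range_succ,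
      ih, hg, add_zero, Finset.sum_range_succ]

variable {E F : Type*} [NormedAddCommGroup E] [NormedSpace ℝ E] [NormedAddCommGroup F]
  [NormedSpace ℝ F]

lemma iteratedDeriv_line (Φ : E → F) (N : ℕ) (hΦ : ContDiff ℝ N Φ) (x e : E) (j : ℕ) (hj : j ≤ N)
    (s : ℝ) :
    iteratedDeriv j (fun s : ℝ => Φ (x + s • e)) s =
      iteratedFDeriv ℝ j Φ (x + s • e) (fun _ => e) := by
  set L : ℝ →L[ℝ] E := ContinuousLinearMap.toSpanSingleton ℝ e with hL
  have h1 : (fun s : ℝ => Φ (x + s • e)) = (fun y => Φ (x + y)) ∘ L := by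
    ext s; simp [hL]
  have h2 : ContDiff ℝ N (fun y => Φ (x + y)) := hΦ.comp (contDiff_const.add contDiff_id)
  rw [iteratedDeriv_eq_iteratedFDeriv, h1,
    L.iteratedFDeriv_comp_right h2 s (by exact_mod_cast hj)]
  rw [iteratedFDeriv_comp_add_left]
  simp [hL]

/-- Symmetric Taylor expansion, uniformly near a point. -/
lemma sym_taylor (Φ : E → F) (m : ℕ) (hm : 0 < m) (hΦ : ContDiff ℝ (2 * m : ℕ) Φ) (x0 : E) :
    ∃ r : ℝ, 0 < r ∧ ∃ C : ℝ, 0 ≤ C ∧ ∀ x ∈ ball x0 r, ∀ e : E, ‖e‖ ≤ 1 → ∀ t : ℝ, 0 < t →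
      t ≤ r → ‖Φ (x + t • e) + Φ (x - t • e) - (2 : ℝ) • Φ x -
        ∑ j ∈ Finset.Ico 1 m, (2 * t ^ (2 * j) / (2 * j).factorial : ℝ) •
          iteratedFDeriv ℝ (2 * j) Φ x (fun _ => e)‖ ≤ C * t ^ (2 * m) := by
  have hcont : Continuous (iteratedFDeriv ℝ (2 * m) Φ) := hΦ.continuous_iteratedFDeriv le_rfl
  obtain ⟨r1, hr1, hr1'⟩ := Metric.continuousAt_iff.mp (hcont.continuousAt (x := x0)) 1 one_pos
  set C0 := ‖iteratedFDeriv ℝ (2 * m) Φ x0‖ + 1 with hC0
  have hC0pos : 0 < C0 := by positivity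
  have hb : ∀ y, dist y x0 < r1 → ‖iteratedFDeriv ℝ (2 * m) Φ y‖ ≤ C0 := by
    intro y hy
    have h1 := (hr1' hy).le
    rw [dist_eq_norm] at h1
    calc _ = ‖iteratedFDeriv ℝ (2 * m) Φ x0 +
        (iteratedFDeriv ℝ (2 * m) Φ y - iteratedFDeriv ℝ (2 * m) Φ x0)‖ := by
          congr 1; abel
      _ ≤ _ := norm_add_le _ _
      _ ≤ _ := by rw [hC0]; gcongr
  refine ⟨r1 / 2, by positivity, 2 * C0, by positivity, fun x hx e he t ht htr => ?_⟩
  rw [mem_ball] at hx
  set φ : ℝ → F := fun s => Φ (x + s • e) with hφ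
  have hφc : ContDiff ℝ (2 * m : ℕ) φ :=
    hΦ.comp (contDiff_const.add (contDiff_id.smul contDiff_const))
  have hφd : ∀ j ≤ 2 * m, ∀ s, iteratedDeriv j φ s =
      iteratedFDeriv ℝ j Φ (x + s • e) (fun _ => e) :=
    fun j hj s => iteratedDeriv_line Φ (2 * m) hΦ x e j hj s
  set φn : ℝ → F := fun s => φ (-s) with hφn
  have hφnc : ContDiff ℝ (2 * m : ℕ) φn := hφc.comp contDiff_neg
  set ψ : ℝ → F := φ + φn with hψ
  have hψc : ContDiff ℝ (2 * m : ℕ) ψ := hφc.add hφnc
  have hψd : ∀ j ≤ 2 * m, ∀ s, iteratedDeriv j ψ s =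
      iteratedFDeriv ℝ j Φ (x + s • e) (fun _ => e) +
      (-1 : ℝ) ^ j • iteratedFDeriv ℝ j Φ (x + (-s) • e) (fun _ => e) := by
    intro j hj s
    rw [hψ, iteratedDeriv_add (hφc.contDiffAt.of_le (by exact_mod_cast hj))
      (hφnc.contDiffAt.of_le (by exact_mod_cast hj)), hφn, iteratedDeriv_comp_neg,
      hφd j hj, hφd j hj]
  have hwithin : ∀ j ≤ 2 * m, ∀ s ∈ Icc 0 t, iteratedDerivWithin j ψ (Icc 0 t) s =
      iteratedDeriv j ψ s := by
    intro j hj s hs
    exact iteratedDerivWithin_eq_iteratedDeriv (uniqueDiffOn_Icc ht)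
      (hψc.contDiffAt.of_le (by exact_mod_cast hj)) hs
  obtain ⟨n, hn⟩ : ∃ n, 2 * m = n + 1 := ⟨2 * m - 1, by omega⟩
  have hT := taylor_mean_remainder_bound (f := ψ) (a := 0) (b := t) (x := t) (n := n)
    (C := 2 * C0) ht.le (by
      have := hψc.contDiffOn (s := Icc 0 t)
      rw [hn] at this
      exact_mod_cast this) (right_mem_Icc.mpr ht.le) (by
      intro y hy
      rw [← hn, hwithin _ le_rfl y hy, hψd _ le_rfl]
      have h1 : ∀ s : ℝ, |s| ≤ t → ‖iteratedFDeriv ℝ (2 * m) Φ (x + s • e) (fun _ => e)‖ ≤ C0 := by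
        intro s hs
        have h2 : dist (x + s • e) x0 < r1 := by
          calc dist (x + s • e) x0 ≤ dist (x + s • e) x + dist x x0 := dist_triangle _ _ _
            _ < r1 / 2 + r1 / 2 := by
              apply add_lt_add_of_le_of_lt _ hx
              rw [dist_eq_norm, add_sub_cancel_left, norm_smul, Real.norm_eq_abs]
              calc |s| * ‖e‖ ≤ t * 1 := by gcongr
                _ ≤ r1 / 2 := by linarith
            _ = r1 := by ring
        refine ((iteratedFDeriv ℝ (2 * m) Φ (x + s • e)).le_opNorm _).trans ?_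
        have h3 : ∏ _i : Fin (2 * m), ‖e‖ ≤ 1 := by
          apply Finset.prod_le_one
          · intro _ _; exact norm_nonneg _
          · intro _ _; exact he
        calc _ ≤ C0 * 1 := by
              gcongr
              exact hb _ h2
          _ = C0 := mul_one _
      refine (norm_add_le _ _).trans ?_
      rw [norm_smul, norm_pow, norm_neg, norm_one, one_pow, one_mul]
      have h4 := h1 y (by rw [abs_of_nonneg hy.1]; exact hy.2)
      have h5 := h1 (-y) (by rw [abs_neg, abs_of_nonneg hy.1]; exact hy.2)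
      linarith)
  rw [taylor_within_apply, ← hn, sub_zero] at hT
  have hsum : ∑ k ∈ Finset.range (2 * m), ((k.factorial : ℝ)⁻¹ * t ^ k) •
      iteratedDerivWithin k ψ (Icc 0 t) 0 = (2 : ℝ) • Φ x +
      ∑ j ∈ Finset.Ico 1 m, (2 * t ^ (2 * j) / (2 * j).factorial : ℝ) •
          iteratedFDeriv ℝ (2 * j) Φ x (fun _ => e) := by
    have e1 : ∀ k ∈ Finset.range (2 * m), ((k.factorial : ℝ)⁻¹ * t ^ k) •
      iteratedDerivWithin k ψ (Icc 0 t) 0 = ((k.factorial : ℝ)⁻¹ * t ^ k * (1 + (-1) ^ k)) •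
        iteratedFDeriv ℝ k Φ x (fun _ => e) := by
      intro k hk
      have hk' : k ≤ 2 * m := (Finset.mem_range.mp hk).le
      rw [hwithin k hk' 0 (left_mem_Icc.mpr ht.le), hψd k hk']
      simp only [zero_smul, add_zero, neg_zero]
      module
    rw [Finset.sum_congr rfl e1, sum_range_two_mul]
    · rw [Finset.range_eq_Ico, Finset.sum_eq_sum_Ico_succ_bot hm]
      congr 1
      · simp; norm_num
      · apply Finset.sum_congr rfl
        intro j _
        congr 1
        rw [pow_mul (-1 : ℝ) 2 j]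
        norm_num
        field_simp
    · intro j
      have : (1 : ℝ) + (-1) ^ (2 * j + 1) = 0 := by
        rw [pow_succ, pow_mul]; norm_num
      rw [this, mul_zero, zero_smul]
  rw [hsum] at hT
  have hval : Φ (x + t • e) + Φ (x - t • e) = ψ t := by
    simp only [hψ, hφn, hφ, Pi.add_apply]
    rw [neg_smul, ← sub_eq_add_neg]
  rw [hval, sub_sub]
  refine hT.trans ?_
  have : (1 : ℝ) ≤ n.factorial := by exact_mod_cast n.factorial_pos
  rw [div_le_iff₀ (by positivity)]
  have h6 : 0 ≤ 2 * C0 * t ^ (2 * m) := by positivity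
  nlinarith

end Taylor

/-- The real sequence space. -/
abbrev XX (p : ℝ≥0∞) : Type := lp (fun _ : ℕ => ℝ) p

variable {p : ℝ≥0∞} [hp1 : Fact (1 ≤ p)]

/-- unit vectors -/
noncomputable def ee (p : ℝ≥0∞) (n : ℕ) : XX p := lp.single p n (1 : ℝ)

lemma ee_apply_self (n : ℕ) : (ee p n : ℕ → ℝ) n = 1 := by simp [ee]

lemma ee_apply_ne {n i : ℕ} (h : i ≠ n) : (ee p n : ℕ → ℝ) i = 0 := by
  simp [ee, Pi.single_eq_of_ne h]

lemma add_smul_apply (x y : XX p) (t : ℝ) (i : ℕ) :
    ((x + t • y : XX p) : ℕ → ℝ) i = (x : ℕ → ℝ) i + t * (y : ℕ → ℝ) i := rfl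

lemma smul_apply' (y : XX p) (t : ℝ) (i : ℕ) :
    ((t • y : XX p) : ℕ → ℝ) i = t * (y : ℕ → ℝ) i := rfl

lemma add_apply' (x y : XX p) (i : ℕ) :
    ((x + y : XX p) : ℕ → ℝ) i = (x : ℕ → ℝ) i + (y : ℕ → ℝ) i := rfl

lemma norm_ee (n : ℕ) : ‖ee p n‖ = 1 := by
  have hp0 : 0 < p := zero_lt_one.trans_le hp1.out
  simp [ee, lp.norm_single hp0]

lemma p_toReal_pos (hp : p ≠ ⊤) : 0 < p.toReal :=
  ENNReal.toReal_pos (zero_lt_one.trans_le hp1.out).ne' hp

lemma one_le_toReal (hp : p ≠ ⊤) : 1 ≤ p.toReal := by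
  have := ENNReal.toReal_mono hp hp1.out
  simpa using this

/-- Adding a new coordinate. -/
lemma norm_add_smul_ee (hp : p ≠ ⊤) (x : XX p) (n : ℕ) (hx : (x : ℕ → ℝ) n = 0) (t : ℝ) :
    ‖x + t • ee p n‖ ^ p.toReal = ‖x‖ ^ p.toReal + |t| ^ p.toReal := by
  have h0 := p_toReal_pos hp
  have h1 := lp.hasSum_norm h0 x
  have h2 := lp.hasSum_norm h0 (t • ee p n)
  have h3 := lp.hasSum_norm h0 (x + t • ee p n)
  have h4 := h1.add h2
  have h5 : (fun i => ‖(x : ℕ → ℝ) i‖ ^ p.toReal + ‖((t • ee p n : XX p) : ℕ → ℝ) i‖ ^ p.toReal) =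
      fun i => ‖((x + t • ee p n : XX p) : ℕ → ℝ) i‖ ^ p.toReal := by
    ext i
    rw [add_smul_apply, smul_apply']
    by_cases hi : i = n
    · subst hi
      rw [hx, norm_zero, Real.zero_rpow h0.ne', zero_add, zero_add]
    · rw [ee_apply_ne hi, mul_zero, norm_zero, Real.zero_rpow h0.ne', add_zero, add_zero]
  rw [h5] at h4
  rw [h3.unique h4, norm_smul, norm_ee, mul_one, Real.norm_eq_abs]

/-- Weak sequential continuity at unit vectors of multilinear forms of degree less than `p`. -/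
lemma multilin_tendsto (hp : p ≠ ⊤) {ι : Type} [Fintype ι] [DecidableEq ι] :
    ∀ (k : ℕ), 0 < k → (k : ℝ) < p.toReal →
    ∀ (A : ContinuousMultilinearMap ℝ (fun _ : ι => XX p) ℝ) (S : Finset ι) (v : ι → XX p),
      S.card = k →
    Tendsto (fun n => A (S.piecewise (fun _ => ee p n) v)) atTop (𝓝 0) := by
  intro k
  induction k using Nat.strong_induction_on with
  | _ k ih =>
  intro hk hkp A S v hS
  -- it suffices to treat one sign
  have key : ∀ (A : ContinuousMultilinearMap ℝ (fun _ : ι => XX p) ℝ) (δ : ℝ), 0 < δ →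
      ¬ ∃ᶠ n in atTop, δ ≤ A (S.piecewise (fun _ => ee p n) v) := by
    intro A δ hδ hfreq
    have hSne : S.Nonempty := Finset.card_pos.mp (by omega)
    -- mixed terms
    have hmix : ∀ s : XX p, Tendsto (fun n =>
        A (S.piecewise (fun _ => s + ee p n) v) - A (S.piecewise (fun _ => s) v)
          - A (S.piecewise (fun _ => ee p n) v)) atTop (𝓝 0) := by
      intro s
      set m1 : ι → XX p := S.piecewise (fun _ => s) v with hm1
      have hexp : ∀ n, A (S.piecewise (fun _ => s + ee p n) v) =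
          ∑ T : Finset ι, A (T.piecewise m1 (S.piecewise (fun _ => ee p n) 0)) := by
        intro n
        rw [← A.map_add_univ]
        congr 1
        ext1 i
        by_cases hi : i ∈ S
        · simp [hm1, hi]
        · simp [hm1, hi]
      have huniv : ∀ n, A ((Finset.univ : Finset ι).piecewise m1
          (S.piecewise (fun _ => ee p n) 0)) = A m1 := by
        intro n; simp
      have hcompl : ∀ n, A ((Sᶜ : Finset ι).piecewise m1
          (S.piecewise (fun _ => ee p n) 0)) = A (S.piecewise (fun _ => ee p n) v) := by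
        intro n
        congr 1
        ext1 i
        by_cases hi : i ∈ S
        · simp [hi]
        · simp [hm1, hi]
      have hne : (Sᶜ : Finset ι) ≠ Finset.univ := by
        intro h
        obtain ⟨i, hi⟩ := hSne
        have : i ∈ Sᶜ := h ▸ Finset.mem_univ i
        simp at this
        exact this hi
      have hsum : ∀ n, A (S.piecewise (fun _ => s + ee p n) v) - A m1
          - A (S.piecewise (fun _ => ee p n) v) =
          ∑ T ∈ (Finset.univ.erase Finset.univ).erase Sᶜ,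
            A (T.piecewise m1 (S.piecewise (fun _ => ee p n) 0)) := by
        intro n
        rw [hexp n, ← Finset.add_sum_erase Finset.univ _ (Finset.mem_univ Finset.univ),
          ← Finset.add_sum_erase (Finset.univ.erase Finset.univ) _
            (Finset.mem_erase.mpr ⟨hne, Finset.mem_univ _⟩), huniv, hcompl]
        ring
      simp_rw [hsum]
      rw [show (0 : ℝ) = ∑ T ∈ ((Finset.univ : Finset (Finset ι)).erase Finset.univ).erase Sᶜ,
        (0 : ℝ) by simp]
      apply tendsto_finsetSum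
      intro T hT
      rw [Finset.mem_erase, Finset.mem_erase] at hT
      by_cases hsub : Sᶜ ⊆ T
      · have hT' : Tᶜ ⊆ S := by
          intro i hi
          by_contra h
          exact (Finset.mem_compl.mp hi) (hsub (Finset.mem_compl.mpr h))
        have hTne : Tᶜ.Nonempty := by
          rw [Finset.nonempty_iff_ne_empty, Ne, Finset.compl_eq_empty_iff]
          exact hT.2.1
        have hTcard : Tᶜ.card < k := by
          rw [← hS]
          apply Finset.card_lt_card
          refine Finset.ssubset_iff_subset_ne.mpr ⟨hT', fun h => hT.1 ?_⟩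
          rw [← h, compl_compl]
        have h1 := ih Tᶜ.card hTcard (Finset.card_pos.mpr hTne)
          (lt_trans (by exact_mod_cast hTcard) hkp) A Tᶜ m1 rfl
        refine h1.congr fun n => ?_
        congr 1
        ext1 i
        by_cases hi : i ∈ T
        · simp [hi]
        · have hiS : i ∈ S := hT' (Finset.mem_compl.mpr hi)
          simp [hi, hiS]
      · obtain ⟨i, hiS, hiT⟩ := Finset.not_subset.mp hsub
        have : ∀ n, A (T.piecewise m1 (S.piecewise (fun _ => ee p n) 0)) = 0 := by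
          intro n
          apply A.map_coord_zero i
          have : i ∉ S := Finset.mem_compl.mp hiS
          simp [hiT, this]
        simp_rw [this]
        exact tendsto_const_nhds
    -- growth along finite sums
    have hgrow : ∀ m : ℕ, ∃ (N : ℕ) (s : XX p), (∀ i, N ≤ i → (s : ℕ → ℝ) i = 0) ∧
        ‖s‖ ^ p.toReal = m ∧ m * (δ / 2) ≤ A (S.piecewise (fun _ => s) v) := by
      intro m
      induction m with
      | zero =>
        refine ⟨0, 0, fun i _ => by simp, by simp [(p_toReal_pos hp).ne'], ?_⟩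
        obtain ⟨i, hi⟩ := hSne
        rw [A.map_coord_zero i (by simp [hi])]
        simp
      | succ m ihm =>
        obtain ⟨N, s, hs1, hs2, hs3⟩ := ihm
        have h1 := (hmix s).eventually (lt_mem_nhds (show -(δ / 2) < 0 by linarith))
        obtain ⟨n, hn1, hn2, hn3⟩ := (hfreq.and_eventually (h1.and (eventually_ge_atTop N))).exists
        refine ⟨n + 1, s + ee p n, ?_, ?_, ?_⟩
        · intro i hi
          have e1 : (s : ℕ → ℝ) i = 0 := hs1 i (by omega)
          have e2 : (ee p n : ℕ → ℝ) i = 0 := ee_apply_ne (by omega)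
          simp [e1, e2]
        · have := norm_add_smul_ee hp s n (hs1 n hn3) 1
          rw [one_smul] at this
          rw [this, hs2]
          simp
        · push_cast
          linarith
    -- contradiction
    set K := ‖A‖ * ∏ i ∈ Sᶜ, ‖v i‖ with hK
    have hbound : ∀ m : ℕ, m * (δ / 2) ≤ K * (m : ℝ) ^ ((k : ℝ) / p.toReal) := by
      intro m
      obtain ⟨N, s, -, hs2, hs3⟩ := hgrow m
      refine hs3.trans ((le_abs_self _).trans ?_)
      have h1 := A.le_opNorm (S.piecewise (fun _ => s) v)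
      rw [Real.norm_eq_abs] at h1
      refine h1.trans (le_of_eq ?_)
      have h2 : ∏ i, ‖S.piecewise (fun _ => s) v i‖ = ‖s‖ ^ k * ∏ i ∈ Sᶜ, ‖v i‖ := by
        rw [← Finset.prod_mul_prod_compl S]
        congr 1
        · rw [Finset.prod_congr rfl (g := fun _ => ‖s‖) (fun i hi => by simp [hi]),
            Finset.prod_const, hS]
        · exact Finset.prod_congr rfl (fun i hi => by simp [Finset.mem_compl.mp hi])
      have h3 : ‖s‖ ^ k = (m : ℝ) ^ ((k : ℝ) / p.toReal) := by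
        rw [← hs2, ← Real.rpow_mul (norm_nonneg _), ← Real.rpow_natCast]
        congr 1
        field_simp [(p_toReal_pos hp).ne']
      rw [h2, h3, hK]
      ring
    have hlt : (k : ℝ) / p.toReal < 1 := by
      rw [div_lt_one (p_toReal_pos hp)]; exact hkp
    have htend : Tendsto (fun m : ℕ => (m : ℝ) ^ (1 - (k : ℝ) / p.toReal)) atTop atTop :=
      (tendsto_rpow_atTop (by linarith)).comp tendsto_natCast_atTop_atTop
    obtain ⟨m, hm1, hm2⟩ := ((htend.eventually_gt_atTop (K / (δ / 2))).and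
      (eventually_gt_atTop 0)).exists
    have hm : (0 : ℝ) < m := by exact_mod_cast hm2
    have h1 := hbound m
    have h2 : (m : ℝ) = (m : ℝ) ^ (1 - (k : ℝ) / p.toReal) * (m : ℝ) ^ ((k : ℝ) / p.toReal) := by
      rw [← Real.rpow_add hm]
      simp
    rw [div_lt_iff₀ (by positivity)] at hm1
    have h3 : 0 < (m : ℝ) ^ ((k : ℝ) / p.toReal) := Real.rpow_pos_of_pos hm _
    have h4 : (m : ℝ) * (δ / 2) = ((m : ℝ) ^ (1 - (k : ℝ) / p.toReal) * (δ / 2)) *
        (m : ℝ) ^ ((k : ℝ) / p.toReal) := by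
      nth_rewrite 1 [h2]
      ring
    rw [h4] at h1
    have := le_of_mul_le_mul_right h1 h3
    linarith
  rw [Metric.tendsto_atTop']
  intro ε hε
  have h1 := key A ε hε
  have h2 := key (-A) ε hε
  rw [not_frequently] at h1 h2
  obtain ⟨N, hN⟩ := (h1.and h2).exists_forall_of_atTop
  refine ⟨N, fun n hn => ?_⟩
  obtain ⟨a1, a2⟩ := hN n hn.le
  rw [Real.dist_eq, sub_zero, abs_lt]
  rw [neg_apply] at a2
  constructor <;> linarith

lemma pow_le_eps (q ε C : ℝ) (m : ℕ) (hqm : q < 2 * m) (hε : 0 < ε) :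
    ∃ r : ℝ, 0 < r ∧ ∀ t : ℝ, 0 < t → t ≤ r → C * t ^ (2 * m) ≤ ε * t ^ q := by
  have h1 : Tendsto (fun t : ℝ => C * t ^ ((2 * m : ℝ) - q)) (𝓝 0) (𝓝 (C * 0 ^ ((2 * m : ℝ) - q))) :=
    ((Real.continuousAt_rpow_const 0 _ (Or.inr (by linarith))).tendsto).const_mul C
  rw [Real.zero_rpow (by linarith), mul_zero] at h1
  obtain ⟨r, hr, hr'⟩ := Metric.eventually_nhds_iff.mp (h1.eventually (gt_mem_nhds hε))
  refine ⟨r / 2, by positivity, fun t ht htr => ?_⟩
  have h2 := hr' (show dist t 0 < r by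
    rw [Real.dist_eq, sub_zero, abs_of_pos ht]; linarith)
  have h3 : t ^ (2 * m) = t ^ ((2 * m : ℝ) - q) * t ^ q := by
    rw [← Real.rpow_add ht, sub_add_cancel, ← Real.rpow_natCast]
    push_cast
    rfl
  rw [h3, ← mul_assoc]
  have : 0 < t ^ q := Real.rpow_pos_of_pos ht q
  gcongr

/-- Symmetric second differences along new coordinates are `o(t^p)`. -/
lemma sym_small {Y : Type} [NormedAddCommGroup Y] [NormedSpace ℝ Y]
    (m : ℕ) (hm : 0 < m) (hpm : p.toReal < 2 * m)
    (F : XX p → Y) (hF : ContDiff ℝ (2 * m : ℕ) F) (x0 : XX p) (ε : ℝ) (hε : 0 < ε) :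
    ∃ r : ℝ, 0 < r ∧ ∀ ν : Seminorm ℝ Y, (∀ y, ν y ≤ ‖y‖) →
      (∀ j, 1 ≤ j → j < m → ∀ B : ContinuousMultilinearMap ℝ (fun _ : Fin (2 * j) => XX p) Y,
        Tendsto (fun n => ν (B (fun _ => ee p n))) atTop (𝓝 0)) →
      ∀ x ∈ ball x0 r, ∀ t : ℝ, 0 < t → t ≤ r → ∀ᶠ n in atTop,
        ν (F (x + t • ee p n) + F (x - t • ee p n) - (2 : ℝ) • F x) ≤ ε * t ^ p.toReal := by
  obtain ⟨r1, hr1, C, hC, hT⟩ := sym_taylor F m hm hF x0
  obtain ⟨r2, hr2, hT2⟩ := pow_le_eps p.toReal (ε / 2) C m hpm (by positivity)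
  refine ⟨min r1 r2, by positivity, fun ν hν hB x hx t ht htr => ?_⟩
  have htp : 0 < t ^ p.toReal := Real.rpow_pos_of_pos ht _
  have hlim : Tendsto (fun n => ∑ j ∈ Finset.Ico 1 m,
      |2 * t ^ (2 * j) / (2 * j).factorial| *
        ν (iteratedFDeriv ℝ (2 * j) F x (fun _ => ee p n))) atTop (𝓝 0) := by
    rw [show (0 : ℝ) = ∑ j ∈ Finset.Ico 1 m, (|2 * t ^ (2 * j) / (2 * j).factorial| * 0 : ℝ) by
      simp]
    apply tendsto_finsetSum
    intro j hj
    rw [Finset.mem_Ico] at hj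
    exact (hB j hj.1 hj.2 _).const_mul _
  have hev := hlim.eventually (gt_mem_nhds (show 0 < ε / 2 * t ^ p.toReal by positivity))
  filter_upwards [hev] with n hn
  have h1 := hT x (ball_subset_ball (min_le_left _ _) hx) (ee p n) (norm_ee n).le t ht
    (htr.trans (min_le_left _ _))
  have h2 := hT2 t ht (htr.trans (min_le_right _ _))
  set S := ∑ j ∈ Finset.Ico 1 m, (2 * t ^ (2 * j) / (2 * j).factorial : ℝ) •
          iteratedFDeriv ℝ (2 * j) F x (fun _ => ee p n) with hS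
  set D := F (x + t • ee p n) + F (x - t • ee p n) - (2 : ℝ) • F x with hD
  have h3 : ν D ≤ ν (D - S) + ν S := by
    calc ν D = ν ((D - S) + S) := by rw [sub_add_cancel]
      _ ≤ _ := map_add_le_add ν _ _
  have h4 : ν S ≤ ∑ j ∈ Finset.Ico 1 m,
      |2 * t ^ (2 * j) / (2 * j).factorial| *
        ν (iteratedFDeriv ℝ (2 * j) F x (fun _ => ee p n)) := by
    rw [hS]
    refine (Finset.le_sum_of_subadditive ν (map_zero ν).le (map_add_le_add ν) _ _).trans
      (Finset.sum_le_sum fun j _ => ?_)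
    rw [map_smul_eq_mul, Real.norm_eq_abs]
  have h5 : ν (D - S) ≤ ε / 2 * t ^ p.toReal := (hν _).trans (h1.trans h2)
  linarith

lemma sym_small_real (hp : p ≠ ⊤)
    (m : ℕ) (hm : 0 < m) (hpm : p.toReal < 2 * m) (hpm' : ∀ j, 1 ≤ j → j < m → (2 * j : ℝ) < p.toReal)
    (f : XX p → ℝ) (hf : ContDiff ℝ (2 * m : ℕ) f) (x0 : XX p) (ε : ℝ) (hε : 0 < ε) :
    ∃ r : ℝ, 0 < r ∧
      ∀ x ∈ ball x0 r, ∀ t : ℝ, 0 < t → t ≤ r → ∀ᶠ n in atTop,
        |f (x + t • ee p n) + f (x - t • ee p n) - 2 * f x| ≤ ε * t ^ p.toReal := by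
  obtain ⟨r, hr, h⟩ := sym_small m hm hpm f hf x0 ε hε
  refine ⟨r, hr, h (normSeminorm ℝ ℝ) (fun y => le_rfl) (fun j hj1 hj2 B => ?_)⟩
  have h1 := multilin_tendsto hp (2 * j) (by omega) (by exact_mod_cast hpm' j hj1 hj2) B
    Finset.univ 0 (by simp)
  simp only [Finset.piecewise_univ] at h1
  have h2 := h1.norm
  rw [norm_zero] at h2
  exact h2

/-- truncation -/
noncomputable def trunc (I : Finset ℕ) (u : XX p) : XX p :=
  ∑ i ∈ I, lp.single p i ((u : ℕ → ℝ) i)

lemma trunc_add (I : Finset ℕ) (u v : XX p) : trunc I (u + v) = trunc I u + trunc I v := by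
  unfold trunc
  rw [← Finset.sum_add_distrib]
  refine Finset.sum_congr rfl fun i _ => ?_
  rw [add_apply', lp.single_add]

lemma trunc_smul (I : Finset ℕ) (c : ℝ) (u : XX p) : trunc I (c • u) = c • trunc I u := by
  unfold trunc
  rw [Finset.smul_sum]
  refine Finset.sum_congr rfl fun i _ => ?_
  rw [smul_apply', ← smul_eq_mul, lp.single_smul]

lemma norm_trunc_rpow (hp : p ≠ ⊤) (I : Finset ℕ) (u : XX p) :
    ‖trunc I u‖ ^ p.toReal = ∑ i ∈ I, |(u : ℕ → ℝ) i| ^ p.toReal := by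
  unfold trunc
  rw [lp.norm_sum_single (p_toReal_pos hp)]
  simp

lemma norm_trunc_le (hp : p ≠ ⊤) (I : Finset ℕ) (u : XX p) : ‖trunc I u‖ ≤ ‖u‖ := by
  have h := lp.sum_rpow_le_norm_rpow (p_toReal_pos hp) u I
  have h1 : ‖trunc I u‖ ^ p.toReal ≤ ‖u‖ ^ p.toReal := by
    rw [norm_trunc_rpow hp]; exact h
  exact (Real.rpow_le_rpow_iff (norm_nonneg _) (norm_nonneg _) (p_toReal_pos hp)).mp h1

lemma norm_trunc_le_sum (I : Finset ℕ) (u : XX p) :
    ‖trunc I u‖ ≤ ∑ i ∈ I, |(u : ℕ → ℝ) i| := by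
  unfold trunc
  refine (norm_sum_le _ _).trans (Finset.sum_le_sum fun i _ => ?_)
  rw [lp.norm_single (zero_lt_one.trans_le hp1.out)]
  rfl

lemma norm_ge (hp : p ≠ ⊤) (I : Finset ℕ) (n : ℕ) (hn : n ∉ I) (u : XX p) :
    ‖trunc I u‖ ^ p.toReal + |(u : ℕ → ℝ) n| ^ p.toReal ≤ ‖u‖ ^ p.toReal := by
  have h := lp.sum_rpow_le_norm_rpow (p_toReal_pos hp) u (insert n I)
  rw [Finset.sum_insert hn] at h
  rw [norm_trunc_rpow hp, add_comm]
  exact h

lemma exists_trunc (hp : p ≠ ⊤) (u : XX p) (η : ℝ) (hη : 0 < η) :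
    ∃ I : Finset ℕ, ‖u‖ - η ≤ ‖trunc I u‖ := by
  have h := lp.hasSum_single hp u
  obtain ⟨I, hI⟩ := (h.eventually (Metric.ball_mem_nhds _ hη)).exists
  refine ⟨I, ?_⟩
  have hI : dist (trunc I u) u < η := hI
  rw [dist_comm, dist_eq_norm] at hI
  have := norm_sub_norm_le u (trunc I u)
  linarith

/-- truncated norm as a seminorm -/
noncomputable def truncSemi (I : Finset ℕ) : Seminorm ℝ (XX p) :=
  Seminorm.of (fun u => ‖trunc I u‖) (fun u v => by rw [trunc_add]; exact norm_add_le _ _)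
    (fun c u => by rw [trunc_smul, norm_smul])

lemma sym_small_trunc (hp : p ≠ ⊤)
    (m : ℕ) (hm : 0 < m) (hpm : p.toReal < 2 * m) (hpm' : ∀ j, 1 ≤ j → j < m → (2 * j : ℝ) < p.toReal)
    (F : XX p → XX p) (hF : ContDiff ℝ (2 * m : ℕ) F) (x0 : XX p) (ε : ℝ) (hε : 0 < ε) :
    ∃ r : ℝ, 0 < r ∧ ∀ I : Finset ℕ,
      ∀ x ∈ ball x0 r, ∀ t : ℝ, 0 < t → t ≤ r → ∀ᶠ n in atTop,
        ‖trunc I (F (x + t • ee p n) + F (x - t • ee p n) - (2 : ℝ) • F x)‖ ≤ ε * t ^ p.toReal := by
  obtain ⟨r, hr, h⟩ := sym_small m hm hpm F hF x0 ε hε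
  refine ⟨r, hr, fun I => h (truncSemi I) (fun y => norm_trunc_le hp I y) (fun j hj1 hj2 B => ?_)⟩
  have h1 : ∀ i : ℕ, Tendsto (fun n => |((B (fun _ => ee p n) : XX p) : ℕ → ℝ) i|) atTop (𝓝 0) := by
    intro i
    have h2 := multilin_tendsto hp (2 * j) (by omega) (by exact_mod_cast hpm' j hj1 hj2)
      ((lp.evalCLM ℝ (fun _ : ℕ => ℝ) p i).compContinuousMultilinearMap B)
      Finset.univ 0 (by simp)
    simp only [Finset.piecewise_univ] at h2
    have h3 := h2.norm
    rw [norm_zero] at h3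
    exact h3
  have h4 : Tendsto (fun n => ∑ i ∈ I, |((B (fun _ => ee p n) : XX p) : ℕ → ℝ) i|) atTop (𝓝 0) := by
    rw [show (0 : ℝ) = ∑ i ∈ I, (0 : ℝ) by simp]
    exact tendsto_finsetSum _ fun i _ => h1 i
  exact squeeze_zero (fun n => apply_nonneg (truncSemi I) _) (fun n => norm_trunc_le_sum I _) h4

/-- A greedy walk along unit vectors. -/
lemma greedy (hp : p ≠ ⊤) (Θ : XX p → ℝ) (B c : ℝ) (hc : 0 < c) (hB : ∀ x, Θ x ≤ B)
    (h0 : 0 ≤ Θ 0)
    (hLA : ∀ x1 : XX p, ∃ r : ℝ, 0 < r ∧ ∀ x ∈ ball x1 r, ∀ N : ℕ,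
      (∀ i, N ≤ i → (x : ℕ → ℝ) i = 0) → 0 ≤ Θ x → ∀ t : ℝ, 0 < t → t ≤ r →
      ∃ n, N ≤ n ∧ ∃ τ : ℝ, |τ| = t ∧ Θ x + c * t ^ p.toReal ≤ Θ (x + τ • ee p n)) : False := by
  classical
  set q := p.toReal with hq
  have hq0 : 0 < q := p_toReal_pos hp
  let State := {s : XX p × ℕ // (∀ i, s.2 ≤ i → (s.1 : ℕ → ℝ) i = 0) ∧ 0 ≤ Θ s.1}
  let Good : State → ℕ → Prop := fun s j => ∃ n, s.1.2 ≤ n ∧ ∃ τ : ℝ, |τ| = (1 / 2) ^ j ∧
    Θ s.1.1 + c * ((1 / 2) ^ j) ^ q ≤ Θ (s.1.1 + τ • ee p n)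
  have hsmall : ∀ r : ℝ, 0 < r → ∃ j : ℕ, ((1 : ℝ) / 2) ^ j ≤ r := by
    intro r hr
    obtain ⟨j, hj⟩ := exists_pow_lt_of_lt_one hr (by norm_num : (1 : ℝ) / 2 < 1)
    exact ⟨j, hj.le⟩
  have hgood : ∀ s : State, ∃ j, Good s j := by
    intro s
    obtain ⟨r, hr, h⟩ := hLA s.1.1
    obtain ⟨j, hj⟩ := hsmall r hr
    exact ⟨j, h s.1.1 (mem_ball_self hr) s.1.2 s.2.1 s.2.2 _ (by positivity) hj⟩
  have hstep : ∀ s : State, ∃ (s' : State) (j : ℕ), (∀ i < j, ¬ Good s i) ∧
      ∃ n, s.1.2 ≤ n ∧ s'.1.2 = n + 1 ∧ ∃ τ : ℝ, |τ| = (1 / 2) ^ j ∧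
        s'.1.1 = s.1.1 + τ • ee p n ∧ Θ s.1.1 + c * ((1 / 2) ^ j) ^ q ≤ Θ s'.1.1 := by
    intro s
    have hfind := Nat.find_spec (hgood s)
    obtain ⟨n, hn, τ, hτ, hΘ⟩ := hfind
    have hpos : 0 ≤ c * (((1 : ℝ) / 2) ^ (Nat.find (hgood s))) ^ q := by positivity
    refine ⟨⟨(s.1.1 + τ • ee p n, n + 1), ?_, ?_⟩, Nat.find (hgood s),
      fun i hi => Nat.find_min (hgood s) hi, n, hn, rfl, τ, hτ, rfl, hΘ⟩
    · intro i hi
      have hi : n + 1 ≤ i := hi
      show ((s.1.1 + τ • ee p n : XX p) : ℕ → ℝ) i = 0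
      rw [add_smul_apply, s.2.1 i (by omega), ee_apply_ne (by omega)]
      simp
    · have := s.2.2
      show 0 ≤ Θ (s.1.1 + τ • ee p n)
      linarith
  choose nxt jj hmin nn hnn hnxt τ hτ hx hΘ using hstep
  let s0 : State := ⟨(0, 0), fun i _ => rfl, h0⟩
  let sq : ℕ → State := fun k => nxt^[k] s0
  have hsucc : ∀ k, sq (k + 1) = nxt (sq k) := fun k => Function.iterate_succ_apply' _ _ _
  set x : ℕ → XX p := fun k => (sq k).1.1 with hxdef
  set d : ℕ → ℝ := fun k => ((1 / 2 : ℝ) ^ (jj (sq k))) ^ q with hd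
  have hdpos : ∀ k, 0 < d k := fun k => by positivity
  have hxs : ∀ k, x (k + 1) = x k + τ (sq k) • ee p (nn (sq k)) := by
    intro k
    simp only [hxdef]
    rw [hsucc, hx]
  have hΘs : ∀ k, Θ (x k) + c * d k ≤ Θ (x (k + 1)) := by
    intro k
    simp only [hxdef, hd]
    rw [hsucc]
    exact hΘ _
  have hsumle : ∀ K, ∑ k ∈ Finset.range K, c * d k ≤ Θ (x K) - Θ (x 0) := by
    intro K
    induction K with
    | zero => simp
    | succ K ih =>
      rw [Finset.sum_range_succ]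
      linarith [hΘs K]
  have hsum : Summable d := by
    have h1 : Summable (fun k => c * d k) := by
      apply summable_of_sum_range_le (c := B - Θ (x 0))
      · intro k; have := hdpos k; positivity
      · intro K; linarith [hsumle K, hB (x K)]
    have h2 := h1.mul_left c⁻¹
    refine h2.congr fun k => ?_
    field_simp
  have hNmono : ∀ k l, k ≤ l → (sq k).1.2 ≤ (sq l).1.2 := by
    intro k l hkl
    induction hkl with
    | refl => exact le_rfl
    | @step l _ ih =>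
      refine ih.trans ?_
      rw [hsucc, hnxt]
      have := hnn (sq l)
      omega
  have hdiff : ∀ k l, k ≤ l → ‖x l - x k‖ ^ q = ∑ i ∈ Finset.Ico k l, d i := by
    intro k l hkl
    induction hkl with
    | refl => simp [hq0.ne']
    | @step l hkl ih =>
      rw [Finset.sum_Ico_succ_top hkl, ← ih, hxs l]
      have hz : ((x l - x k : XX p) : ℕ → ℝ) (nn (sq l)) = 0 := by
        have e1 : (x l : ℕ → ℝ) (nn (sq l)) = 0 := (sq l).2.1 _ (hnn (sq l))
        have e2 : (x k : ℕ → ℝ) (nn (sq l)) = 0 :=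
          (sq k).2.1 _ ((hNmono k l hkl).trans (hnn (sq l)))
        show (x l : ℕ → ℝ) (nn (sq l)) - (x k : ℕ → ℝ) (nn (sq l)) = 0
        rw [e1, e2, sub_zero]
      have := norm_add_smul_ee hp (x l - x k) (nn (sq l)) hz (τ (sq l))
      rw [hτ] at this
      rw [← this]
      congr 2
      abel
  have hcauchy : CauchySeq x := by
    rw [Metric.cauchySeq_iff']
    intro ε hε
    have h1 : CauchySeq fun K => ∑ k ∈ Finset.range K, d k := hsum.hasSum.tendsto_sum_nat.cauchySeq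
    rw [Metric.cauchySeq_iff'] at h1
    obtain ⟨K, hK⟩ := h1 (ε ^ q) (by positivity)
    refine ⟨K, fun l hl => ?_⟩
    have h2 := hK l hl
    rw [Real.dist_eq, ← Finset.sum_Ico_eq_sub _ hl, ← hdiff K l hl,
      abs_of_nonneg (by positivity)] at h2
    rw [dist_eq_norm]
    exact (Real.rpow_lt_rpow_iff (norm_nonneg _) hε.le hq0).mp h2
  obtain ⟨x1, hx1⟩ := cauchySeq_tendsto_of_complete hcauchy
  obtain ⟨r, hr, hLA1⟩ := hLA x1
  obtain ⟨J, hJ⟩ := hsmall r hr
  have hJpos : (0 : ℝ) < ((1 / 2) ^ J) ^ q := by positivity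
  have hev1 := hx1.eventually (Metric.ball_mem_nhds x1 hr)
  have hev2 := hsum.tendsto_atTop_zero.eventually (gt_mem_nhds hJpos)
  obtain ⟨k, hk1, hk2⟩ := (hev1.and hev2).exists
  have hG : Good (sq k) J := hLA1 (x k) hk1 _ (sq k).2.1 (sq k).2.2 _ (by positivity) hJ
  have hle : jj (sq k) ≤ J := by
    by_contra h
    exact hmin (sq k) J (not_le.mp h) hG
  have : ((1 / 2 : ℝ) ^ J) ^ q ≤ d k := by
    simp only [hd]
    apply Real.rpow_le_rpow (by positivity) _ hq0.le
    exact pow_le_pow_of_le_one (by norm_num) (by norm_num) hle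
  linarith

/-- limit along a fixed nonprincipal ultrafilter -/
noncomputable def ulim (s : ℕ → ℝ) : ℝ := limUnder (hyperfilter ℕ : Filter ℕ) s

lemma ulim_spec (s : ℕ → ℝ) (B : ℝ) (hs : ∀ n, |s n| ≤ B) :
    Tendsto s (hyperfilter ℕ : Filter ℕ) (𝓝 (ulim s)) := by
  apply tendsto_nhds_limUnder
  have h1 : ((hyperfilter ℕ).map s : Ultrafilter ℝ) ≤ 𝓟 (Icc (-B) B) := by
    rw [le_principal_iff]
    show s ⁻¹' (Icc (-B) B) ∈ (hyperfilter ℕ : Filter ℕ)
    exact Filter.mem_of_superset Filter.univ_mem (fun n _ => abs_le.mp (hs n))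
  obtain ⟨y, -, hy⟩ := isCompact_Icc.ultrafilter_le_nhds _ h1
  exact ⟨y, hy⟩

/-- The ultralimit of the diagonal entries of an operator. -/
noncomputable def diagLim (p : ℝ≥0∞) [hp1 : Fact (1 ≤ p)] : (XX p →L[ℝ] XX p) →L[ℝ] ℝ := by
  have hb : ∀ (T : XX p →L[ℝ] XX p) (n : ℕ), |((T (ee p n) : XX p) : ℕ → ℝ) n| ≤ ‖T‖ := by
    intro T n
    have h1 := lp.norm_apply_le_norm (zero_lt_one.trans_le hp1.out).ne' (T (ee p n)) n
    refine h1.trans ((T.le_opNorm _).trans ?_)
    rw [norm_ee, mul_one]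
  exact LinearMap.mkContinuous
    { toFun := fun T => ulim (fun n => ((T (ee p n) : XX p) : ℕ → ℝ) n)
      map_add' := fun T T' => by
        apply tendsto_nhds_unique (ulim_spec _ _ (hb (T + T')))
        exact (ulim_spec _ _ (hb T)).add (ulim_spec _ _ (hb T'))
      map_smul' := fun c T => by
        apply tendsto_nhds_unique (ulim_spec _ _ (hb (c • T)))
        exact (ulim_spec _ _ (hb T)).const_mul c } 1 (fun T => by
        rw [one_mul]
        exact le_of_tendsto (ulim_spec _ _ (hb T)).norm (Eventually.of_forall (hb T)))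

lemma diagLim_spec (T : XX p →L[ℝ] XX p) :
    Tendsto (fun n => ((T (ee p n) : XX p) : ℕ → ℝ) n) (hyperfilter ℕ : Filter ℕ)
      (𝓝 (diagLim p T)) := by
  refine ulim_spec _ ‖T‖ fun n => ?_
  have h1 := lp.norm_apply_le_norm (zero_lt_one.trans_le hp1.out).ne' (T (ee p n)) n
  refine h1.trans ((T.le_opNorm _).trans ?_)
  rw [norm_ee, mul_one]

lemma bern (q M A s b : ℝ) (hq : 1 ≤ q) (hA : 0 ≤ A) (hAM : A ≤ M) (hs : 0 ≤ s) (hb : 0 ≤ b)
    (h : A - s ≤ b) : A ^ q - q * M ^ (q - 1) * s ≤ b ^ q := by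
  have hM : 0 ≤ M := hA.trans hAM
  by_cases hsA : A ≤ s
  · have h1 : A ^ q ≤ q * M ^ (q - 1) * s := by
      rcases eq_or_lt_of_le hA with h0 | h0
      · rw [← h0, Real.zero_rpow (by linarith)]
        positivity
      · have : A ^ q = A ^ (q - 1) * A := by
          rw [← Real.rpow_add_one h0.ne', sub_add_cancel]
        rw [this]
        calc A ^ (q - 1) * A ≤ M ^ (q - 1) * s := by
              gcongr
          _ ≤ q * (M ^ (q - 1) * s) := le_mul_of_one_le_left (by positivity) hq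
          _ = _ := by ring
    have h2 : 0 ≤ b ^ q := by positivity
    linarith
  · push Not at hsA
    have hA0 : 0 < A := lt_of_le_of_lt hs hsA
    have h1 : (A - s) ^ q ≤ b ^ q := Real.rpow_le_rpow (by linarith) h (by linarith)
    have h2 := one_add_mul_self_le_rpow_one_add (s := -(s / A)) (by
      rw [neg_le_neg_iff, div_le_one hA0]; exact hsA.le) hq
    have h3 : (A - s) ^ q = A ^ q * (1 + -(s / A)) ^ q := by
      rw [← Real.mul_rpow hA0.le (by
        have : s / A ≤ 1 := (div_le_one hA0).mpr hsA.le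
        linarith)]
      congr 1
      field_simp
      ring
    have h4 : A ^ q = A ^ (q - 1) * A := by
      rw [← Real.rpow_add_one hA0.ne', sub_add_cancel]
    have h5 : A ^ q * (1 + q * -(s / A)) ≤ A ^ q * (1 + -(s / A)) ^ q := by gcongr
    have h6 : A ^ q * (1 + q * -(s / A)) = A ^ q - q * A ^ (q - 1) * s := by
      rw [h4]; field_simp; ring
    have h7 : q * A ^ (q - 1) * s ≤ q * M ^ (q - 1) * s := by gcongr
    linarith

/-- Main theorem in terms of the real exponent. -/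
lemma main_aux (hp : p ≠ ⊤) (m : ℕ) (hm : 0 < m) (hpm : p.toReal < 2 * m)
    (hpm' : ∀ j : ℕ, 1 ≤ j → j < m → (2 * j : ℝ) < p.toReal)
    (H : XX p → XX p) (hH : ContDiff ℝ (2 * m + 1 : ℕ) H) (M : ℝ) (hHM : ∀ x, ‖H x‖ ≤ M)
    (hid : ∀ᶠ x in 𝓝 (0 : XX p), H x = x) : False := by
  set q := p.toReal with hq
  have hq0 : 0 < q := p_toReal_pos hp
  have hq1 : 1 ≤ q := one_le_toReal hp
  -- enlarge the bound
  obtain ⟨M, hM1, hHM⟩ : ∃ M : ℝ, 1 ≤ M ∧ ∀ x, ‖H x‖ ≤ M :=
    ⟨max M 1, le_max_right _ _, fun x => (hHM x).trans (le_max_left _ _)⟩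
  have hM0 : 0 < M := by linarith
  set κ : ℝ := (1 / 2) ^ q / 2 with hκ
  have hκ0 : 0 < κ := by positivity
  set lam : ℝ := 16 * M ^ q with hlam
  have hlam0 : 0 < lam := by positivity
  set a : XX p → ℝ := fun x => diagLim p (fderiv ℝ H x) with ha
  have hac : ContDiff ℝ (2 * m : ℕ) a := by
    apply (diagLim p).contDiff.comp
    apply hH.fderiv_right
    norm_cast
  set g : XX p → ℝ := fun x => (a x - 1) ^ 2 with hg
  have hgc : ContDiff ℝ (2 * m : ℕ) g := (hac.sub contDiff_const).pow 2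
  set Θ : XX p → ℝ := fun x => ‖H x‖ ^ q - κ * ‖x‖ ^ q - lam * g x with hΘ
  have hH2m : ContDiff ℝ (2 * m : ℕ) H := hH.of_le (by norm_cast; omega)
  have hH1 : ContDiff ℝ 1 H := hH.of_le (by norm_cast; omega)
  have hHdiff : Differentiable ℝ H := hH1.differentiable (by simp)
  apply greedy hp Θ (M ^ q) (κ / 2) (by positivity)
  · intro x
    simp only [hΘ]
    have h1 : ‖H x‖ ^ q ≤ M ^ q := Real.rpow_le_rpow (norm_nonneg _) (hHM x) hq0.le
    have h2 : 0 ≤ κ * ‖x‖ ^ q := by positivity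
    have h3 : 0 ≤ lam * g x := by simp only [hg]; positivity
    linarith
  · have hf : fderiv ℝ H 0 = ContinuousLinearMap.id ℝ (XX p) := by
      have h1 : H =ᶠ[𝓝 0] fun x => x := hid
      rw [h1.fderiv_eq]
      exact fderiv_fun_id
    have ha0 : a 0 = 1 := by
      simp only [ha]
      rw [hf]
      apply tendsto_nhds_unique (diagLim_spec _)
      have : (fun n => ((ContinuousLinearMap.id ℝ (XX p) (ee p n) : XX p) : ℕ → ℝ) n) =
          fun _ => (1 : ℝ) := by
        ext n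
        exact ee_apply_self n
      rw [this]
      exact tendsto_const_nhds
    have hH0 : H 0 = 0 := hid.self_of_nhds
    simp only [hΘ, hg, ha0, hH0, norm_zero, Real.zero_rpow hq0.ne']
    norm_num
  · intro x1
    set ε2 : ℝ := κ / (4 * (q * M ^ (q - 1))) with hε2
    have hε20 : 0 < ε2 := by positivity
    obtain ⟨r1, hr1, hS1⟩ := sym_small_real hp m hm hpm hpm' g hgc x1 (κ / (2 * lam))
      (by positivity)
    obtain ⟨r2, hr2, hS2⟩ := sym_small_trunc hp m hm hpm hpm' H hH2m x1 ε2 hε20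
    have hfc : Continuous (fderiv ℝ H) := hH1.continuous_fderiv (by simp)
    obtain ⟨r3, hr3, hS3⟩ := Metric.continuousAt_iff.mp (hfc.continuousAt (x := x1)) (1 / 32)
      (by norm_num)
    refine ⟨min r1 (min r2 (r3 / 2)), by positivity, ?_⟩
    intro x hx N hN hΘx t ht htr
    have hx1 : x ∈ ball x1 r1 := ball_subset_ball (min_le_left _ _) hx
    have hx2 : x ∈ ball x1 r2 :=
      ball_subset_ball ((min_le_right _ _).trans (min_le_left _ _)) hx
    have hx3 : x ∈ ball x1 (r3 / 2) :=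
      ball_subset_ball ((min_le_right _ _).trans (min_le_right _ _)) hx
    have ht1 : t ≤ r1 := htr.trans (min_le_left _ _)
    have ht2 : t ≤ r2 := htr.trans ((min_le_right _ _).trans (min_le_left _ _))
    have ht3 : t ≤ r3 / 2 := htr.trans ((min_le_right _ _).trans (min_le_right _ _))
    have htq : 0 < t ^ q := Real.rpow_pos_of_pos ht q
    -- a x is close to 1
    have hax : 3 / 4 ≤ a x := by
      have h1 : ‖H x‖ ^ q ≤ M ^ q := Real.rpow_le_rpow (norm_nonneg _) (hHM x) hq0.le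
      have h2 : 0 ≤ κ * ‖x‖ ^ q := by positivity
      have h3 : lam * g x ≤ M ^ q := by
        simp only [hΘ] at hΘx
        linarith
      have h4 : (a x - 1) ^ 2 ≤ 1 / 16 := by
        have h5 : 0 < M ^ q := by positivity
        have h6 : 16 * M ^ q * (a x - 1) ^ 2 ≤ M ^ q := h3
        have h7 : (16 * (a x - 1) ^ 2) * M ^ q ≤ 1 * M ^ q := by linarith
        have := le_of_mul_le_mul_right h7 h5
        linarith
      nlinarith
    obtain ⟨I, hI⟩ := exists_trunc hp (H x) (ε2 * t ^ q / 2) (by positivity)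
    -- events
    have e1 := (hS1 x hx1 t ht ht1).filter_mono Nat.hyperfilter_le_atTop
    have e2 := (hS2 I x hx2 t ht ht2).filter_mono Nat.hyperfilter_le_atTop
    have e3 : ∀ᶠ n in (hyperfilter ℕ : Filter ℕ),
        11 / 16 < ((fderiv ℝ H x (ee p n) : XX p) : ℕ → ℝ) n :=
      (diagLim_spec (fderiv ℝ H x)).eventually (lt_mem_nhds (by
        have : a x = diagLim p (fderiv ℝ H x) := rfl
        rw [← this]; linarith))
    have e4 : ∀ᶠ n in (hyperfilter ℕ : Filter ℕ), |(H x : ℕ → ℝ) n| ≤ t / 16 := by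
      apply Eventually.filter_mono Nat.hyperfilter_le_atTop
      have h1 := (lp.hasSum_norm hq0 (H x)).summable.tendsto_atTop_zero
      have h2 := h1.eventually (gt_mem_nhds (show 0 < (t / 16) ^ q by positivity))
      filter_upwards [h2] with n hn
      have hn' : |(H x : ℕ → ℝ) n| ^ q < (t / 16) ^ q := hn
      exact ((Real.rpow_lt_rpow_iff (abs_nonneg _) (by positivity) hq0).mp hn').le
    have e5 : ∀ᶠ n in (hyperfilter ℕ : Filter ℕ), N ≤ n ∧ n ∉ I := by
      apply Eventually.filter_mono Nat.hyperfilter_le_atTop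
      refine (eventually_ge_atTop N).and ?_
      filter_upwards [eventually_gt_atTop (I.sup id)] with n hn hnI
      have : n ≤ I.sup id := Finset.le_sup (f := id) hnI
      omega
    obtain ⟨n, h1, h2, h3, h4, h5, h6⟩ := (e1.and (e2.and (e3.and (e4.and e5)))).exists
    -- Taylor expansion of order one
    have htay : ∀ τ : ℝ, |τ| = t →
        |(H (x + τ • ee p n) : ℕ → ℝ) n - (H x : ℕ → ℝ) n -
          τ * ((fderiv ℝ H x (ee p n) : XX p) : ℕ → ℝ) n| ≤ t / 16 := by
      intro τ hτ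
      have hb : ∀ y ∈ ball x1 r3, ‖fderiv ℝ H y - fderiv ℝ H x‖ ≤ 1 / 16 := by
        intro y hy
        have b1 := (hS3 (mem_ball.mp hy)).le
        have b2 := (hS3 (mem_ball.mp (ball_subset_ball (by linarith) hx3 : x ∈ ball x1 r3))).le
        rw [dist_eq_norm] at b1 b2
        calc _ = ‖(fderiv ℝ H y - fderiv ℝ H x1) - (fderiv ℝ H x - fderiv ℝ H x1)‖ := by
              congr 1; abel
          _ ≤ _ := norm_sub_le _ _
          _ ≤ _ := by linarith
      have hmem : x + τ • ee p n ∈ ball x1 r3 := by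
        rw [mem_ball]
        calc dist (x + τ • ee p n) x1 ≤ dist (x + τ • ee p n) x + dist x x1 := dist_triangle _ _ _
          _ < r3 / 2 + r3 / 2 := by
            apply add_lt_add_of_le_of_lt _ (mem_ball.mp hx3)
            rw [dist_eq_norm, add_sub_cancel_left, norm_smul, Real.norm_eq_abs, norm_ee, hτ]
            linarith
          _ = r3 := by ring
      have hmv := Convex.norm_image_sub_le_of_norm_fderiv_le' (fun y _ => hHdiff y) hb
        (convex_ball x1 r3) (ball_subset_ball (by linarith) hx3 : x ∈ ball x1 r3) hmem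
      rw [add_sub_cancel_left, norm_smul, Real.norm_eq_abs, norm_ee, hτ, mul_one, map_smul] at hmv
      have hc := lp.norm_apply_le_norm (zero_lt_one.trans_le hp1.out).ne'
        (H (x + τ • ee p n) - H x - τ • (fderiv ℝ H x) (ee p n)) n
      calc _ ≤ _ := hc
        _ ≤ _ := hmv
        _ = t / 16 := by ring
    have hplus := htay t (abs_of_pos ht)
    have hminus := htay (-t) (by rw [abs_neg, abs_of_pos ht])
    rw [abs_le] at hplus hminus h4
    have hp2 : t / 2 ≤ |(H (x + t • ee p n) : ℕ → ℝ) n| := by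
      refine le_trans ?_ (le_abs_self _)
      nlinarith
    have hm2 : t / 2 ≤ |(H (x + (-t) • ee p n) : ℕ → ℝ) n| := by
      refine le_trans ?_ (neg_le_abs _)
      nlinarith
    -- notation for the two values
    have hsub : x - t • ee p n = x + (-t) • ee p n := by rw [neg_smul, sub_eq_add_neg]
    rw [hsub] at h1 h2
    set up := H (x + t • ee p n) with hup
    set um := H (x + (-t) • ee p n) with hum
    have k1 := norm_ge hp I n h6 up
    have k2 := norm_ge hp I n h6 um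
    have k3 : (t / 2) ^ q ≤ |(up : ℕ → ℝ) n| ^ q := Real.rpow_le_rpow (by positivity) hp2 hq0.le
    have k4 : (t / 2) ^ q ≤ |(um : ℕ → ℝ) n| ^ q := Real.rpow_le_rpow (by positivity) hm2 hq0.le
    have k5 : (t / 2) ^ q = 2 * κ * t ^ q := by
      rw [hκ, div_eq_mul_one_div, Real.mul_rpow ht.le (by norm_num)]
      ring
    -- truncated norms
    have k6 : ‖H x‖ - ε2 * t ^ q ≤ 1 / 2 * ‖trunc I up‖ + 1 / 2 * ‖trunc I um‖ := by
      have c1 : trunc I (up + um - (2 : ℝ) • H x) = trunc I up + trunc I um -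
          (2 : ℝ) • trunc I (H x) := by
        rw [sub_eq_add_neg, ← neg_one_smul ℝ ((2 : ℝ) • H x), trunc_add, trunc_add, trunc_smul,
          trunc_smul, neg_one_smul, ← sub_eq_add_neg]
      rw [c1] at h2
      have c2 : ‖(2 : ℝ) • trunc I (H x)‖ ≤ ‖trunc I up‖ + ‖trunc I um‖ + ε2 * t ^ q := by
        calc _ = ‖(trunc I up + trunc I um) -
              (trunc I up + trunc I um - (2 : ℝ) • trunc I (H x))‖ := by congr 1; abel
          _ ≤ _ := norm_sub_le _ _
          _ ≤ _ := by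
            have := norm_add_le (trunc I up) (trunc I um)
            linarith
      rw [norm_smul] at c2
      norm_num at c2
      linarith
    have k7 := (convexOn_rpow hq1).2 (Set.mem_Ici.mpr (norm_nonneg (trunc I up)))
      (Set.mem_Ici.mpr (norm_nonneg (trunc I um))) (by norm_num : (0 : ℝ) ≤ 1 / 2)
      (by norm_num : (0 : ℝ) ≤ 1 / 2) (by norm_num)
    simp only [smul_eq_mul] at k7
    have k8 := bern q M ‖H x‖ (ε2 * t ^ q) _ hq1 (norm_nonneg _) (hHM x) (by positivity)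
      (by positivity) k6
    have k9 : q * M ^ (q - 1) * (ε2 * t ^ q) = κ / 4 * t ^ q := by
      rw [hε2]
      have : 0 < q * M ^ (q - 1) := by positivity
      field_simp
    have k10 : 2 * ‖H x‖ ^ q - κ / 2 * t ^ q + 4 * κ * t ^ q ≤ ‖up‖ ^ q + ‖um‖ ^ q := by
      linarith
    have hxn : (x : ℕ → ℝ) n = 0 := hN n h5
    have n1 := norm_add_smul_ee hp x n hxn t
    have n2 := norm_add_smul_ee hp x n hxn (-t)
    rw [abs_of_pos ht] at n1
    rw [abs_neg, abs_of_pos ht] at n2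
    have g1 : lam * (g (x + t • ee p n) + g (x + (-t) • ee p n) - 2 * g x) ≤ κ / 2 * t ^ q := by
      have c1 := (abs_le.mp h1).2
      calc _ ≤ lam * (κ / (2 * lam) * t ^ q) := by gcongr
        _ = _ := by field_simp
    have hfin : 2 * Θ x + κ * t ^ q ≤ Θ (x + t • ee p n) + Θ (x + (-t) • ee p n) := by
      simp only [hΘ]
      rw [← hup, ← hum, n1, n2]
      linarith
    by_cases hcase : Θ x + κ / 2 * t ^ q ≤ Θ (x + t • ee p n)
    · exact ⟨n, h5, t, abs_of_pos ht, hcase⟩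
    · refine ⟨n, h5, -t, by rw [abs_neg, abs_of_pos ht], ?_⟩
      push Not at hcase
      linarith

/-- Let `1 ≤ p < ∞` and suppose that `p` is not an even integer. If `m` is a positive integer with
`p < 2 m`, then there is no bounded map `H : ℓ_p → ℓ_p` of class `C^(2m+1)` which coincides with
the identity on a neighbourhood of `0`. In particular there is no such map of class `C^∞`. -/
theorem result (p : ℝ≥0∞) [Fact (1 ≤ p)] (hp : p ≠ ⊤) (heven : ∀ k : ℕ, p ≠ 2 * (k : ℝ≥0∞))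
    (m : ℕ) (hm : p < 2 * (m : ℝ≥0∞)) :
    ¬ ∃ H : lp (fun _ : ℕ => ℝ) p → lp (fun _ : ℕ => ℝ) p,
      ContDiff ℝ (2 * m + 1 : ℕ) H ∧ (∃ C : ℝ, ∀ x, ‖H x‖ ≤ C) ∧ ∀ᶠ x in 𝓝 0, H x = x := by
  rintro ⟨H, hH, ⟨M, hM⟩, hid⟩
  have hpr : p = ENNReal.ofReal p.toReal := (ENNReal.ofReal_toReal hp).symm
  have hne : ∀ k : ℕ, p.toReal ≠ 2 * k := by
    intro k hk
    apply heven k
    rw [hpr, hk, ENNReal.ofReal_mul (by norm_num)]
    simp
  have hq0 : 0 < p.toReal := p_toReal_pos hp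
  set m0 := ⌊p.toReal / 2⌋₊ + 1 with hm0
  have h1 : p.toReal < 2 * m0 := by
    have := Nat.lt_floor_add_one (p.toReal / 2)
    rw [hm0]; push_cast; linarith
  have h2 : ∀ j : ℕ, 1 ≤ j → j < m0 → (2 * j : ℝ) < p.toReal := by
    intro j _ hj
    have h3 : j ≤ ⌊p.toReal / 2⌋₊ := by omega
    have h4 : (j : ℝ) ≤ p.toReal / 2 := (Nat.le_floor_iff (by positivity)).mp h3
    exact lt_of_le_of_ne (by linarith) (hne j).symm
  have h5 : m0 ≤ m := by
    have h6 : p.toReal < 2 * m := by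
      have := (ENNReal.toReal_lt_toReal hp (by finiteness)).mpr hm
      simpa using this
    have h7 : ⌊p.toReal / 2⌋₊ < m := by
      rw [Nat.floor_lt (by positivity)]
      linarith
    omega
  exact main_aux hp m0 (by omega) h1 h2 H (hH.of_le (by norm_cast; omega)) M hM hid

end Pool.Agent.Results.MP_94b2f9_an.NoSmoothBlid
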